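import Pool.Agent.Zk24.PV.Def
import Pool.Agent.N339.PX.CA

/-!
# The quadratic field of a lattice, and systems of local root numbers
-/

set_option autoImplicit false
set_option linter.all false

open IsDedekindDomain NumberField
open scoped Classical

namespace Pool.Agent.Zk24.PV

section

variable {F : Type} [Field F] [NumberField F]

/-- The determinant of the lattice is the quadratic character of `ℚ(√d)`. -/
def IsDetField {g : ℕ} (R : (F ≃ₐ[ℚ] F) →* Matrix.GeneralLinearGroup (Fin g) ℤ) (d : ℤ) : Prop :=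
  Squarefree d ∧ ∃ s : F, s ^ 2 = (d : F) ∧
    ∀ σ : F ≃ₐ[ℚ] F, σ s = (((Matrix.GeneralLinearGroup.det (R σ) : ℤˣ) : ℤ) : F) * s

theorem exists_det [IsGalois ℚ F] {g : ℕ}
    (R : (F ≃ₐ[ℚ] F) →* Matrix.GeneralLinearGroup (Fin g) ℤ) : ∃ d : ℤ, IsDetField R d := by
  set χ : (F ≃ₐ[ℚ] F) →* ℤˣ := Matrix.GeneralLinearGroup.det.comp R with hχ
  have hχ2 : ∀ σ, ((χ σ : ℤˣ) : ℤ) * ((χ σ : ℤˣ) : ℤ) = 1 := by
    intro σ
    rcases Int.units_eq_one_or (χ σ) with h | h <;> rw [h] <;> norm_num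
  -- a vector with a nonzero resolvent
  obtain ⟨x, hx⟩ : ∃ x : F, ∑ σ : F ≃ₐ[ℚ] F, (((χ σ : ℤˣ) : ℤ) : F) * σ x ≠ 0 := by
    by_contra hcon
    push Not at hcon
    have hli := linearIndependent_monoidHom F F
    have hinj : Function.Injective (fun σ : F ≃ₐ[ℚ] F => (σ : F →* F)) := by
      intro σ τ h
      ext y
      exact DFunLike.congr_fun h y
    have h2 := (Fintype.linearIndependent_iff.1 (hli.comp _ hinj))
      (fun σ => (((χ σ : ℤˣ) : ℤ) : F)) (by
        ext y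
        simp only [Finset.sum_apply, Pi.smul_apply, Function.comp_apply, smul_eq_mul,
          Pi.zero_apply]
        exact hcon y) 1
    rw [map_one] at h2
    norm_num at h2
  set s : F := ∑ σ : F ≃ₐ[ℚ] F, (((χ σ : ℤˣ) : ℤ) : F) * σ x with hs
  have hτ : ∀ τ : F ≃ₐ[ℚ] F, τ s = (((χ τ : ℤˣ) : ℤ) : F) * s := by
    intro τ
    rw [hs, map_sum, Finset.mul_sum]
    refine Fintype.sum_equiv (Equiv.mulLeft τ) _ _ ?_
    intro σ
    rw [map_mul, map_intCast, Equiv.coe_mulLeft, map_mul, AlgEquiv.mul_apply, Units.val_mul,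
      Int.cast_mul, ← mul_assoc, ← mul_assoc, ← Int.cast_mul, hχ2, Int.cast_one, one_mul]
  have hs2 : ∀ τ : F ≃ₐ[ℚ] F, τ (s ^ 2) = s ^ 2 := by
    intro τ
    rw [map_pow, hτ, mul_pow, pow_two (((χ τ : ℤˣ) : ℤ) : F), ← Int.cast_mul, hχ2, Int.cast_one,
      one_mul]
  obtain ⟨r, hr⟩ := (IsGalois.mem_range_algebraMap_iff_fixed (F := ℚ) (s ^ 2)).2 hs2
  have hr0 : r ≠ 0 := by
    rintro rfl
    rw [map_zero] at hr
    exact hx (pow_eq_zero_iff two_ne_zero |>.1 hr.symm)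
  obtain ⟨d, t, hd, ht, hdt⟩ := Pool.Agent.N339.PX.sqf r hr0
  have ht' : (algebraMap ℚ F t) ≠ 0 := (map_ne_zero _).2 ht
  refine ⟨d, hd, s / algebraMap ℚ F t, ?_, ?_⟩
  · rw [div_pow, ← hr, hdt, map_mul, map_pow, map_intCast, mul_div_assoc, div_self (pow_ne_zero _ ht'),
      mul_one]
  · intro σ
    rw [map_div₀, hτ, AlgEquiv.commutes, mul_div_assoc]
    rfl

/-- The determinant determines `d`. -/
theorem det_unique [IsGalois ℚ F] {g : ℕ}
    {R : (F ≃ₐ[ℚ] F) →* Matrix.GeneralLinearGroup (Fin g) ℤ} {d d' : ℤ} (h : IsDetField R d)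
    (h' : IsDetField R d') : d = d' := by
  obtain ⟨hd, s, hs, hσ⟩ := h
  obtain ⟨hd', s', hs', hσ'⟩ := h'
  have hu : ∀ σ : F ≃ₐ[ℚ] F, (((Matrix.GeneralLinearGroup.det (R σ) : ℤˣ) : ℤ) : F) *
      (((Matrix.GeneralLinearGroup.det (R σ) : ℤˣ) : ℤ) : F) = 1 := by
    intro σ
    rcases Int.units_eq_one_or (Matrix.GeneralLinearGroup.det (R σ)) with h | h <;> rw [h] <;>
      norm_num
  obtain ⟨r, hr⟩ := (IsGalois.mem_range_algebraMap_iff_fixed (F := ℚ) (s * s')).2 (by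
    intro τ
    rw [map_mul, hσ, hσ']
    linear_combination (s * s') * hu τ)
  have h1 : r ^ 2 = (d * d' : ℤ) := by
    apply (algebraMap ℚ F).injective
    rw [map_pow, hr, mul_pow, hs, hs', map_intCast, Int.cast_mul]
  have h2 : IsSquare ((d * d' : ℤ) : ℚ) := ⟨r, by rw [← h1, pow_two]⟩
  have h3 : IsSquare (d * d') := by
    rw [Rat.isSquare_intCast_iff] at h2
    exact h2
  obtain ⟨k, hk⟩ := h3
  -- squarefree numbers whose product is a square are associated
  have h4 : d ∣ k := by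
    have : d ∣ k ^ 2 := ⟨d', by rw [pow_two]; exact hk.symm⟩
    exact (hd.dvd_pow_iff_dvd two_ne_zero).1 this
  have h5 : d' ∣ k := by
    have : d' ∣ k ^ 2 := ⟨d, by rw [pow_two, ← hk]; ring⟩
    exact (hd'.dvd_pow_iff_dvd two_ne_zero).1 this
  obtain ⟨u, hu1⟩ := h4
  obtain ⟨u', hu2⟩ := h5
  have hd0 := hd.ne_zero
  have hd0' := hd'.ne_zero
  have h6 : d' = d * (u * u) := by
    apply mul_left_cancel₀ hd0
    rw [hk, hu1]; ring
  have h7 : d = d' * (u' * u') := by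
    apply mul_left_cancel₀ hd0'
    rw [mul_comm d' d, hk, hu2]; ring
  have h8 : IsUnit u := hd' u (by rw [h6]; exact dvd_mul_left _ _)
  rcases Int.isUnit_iff.1 h8 with h | h <;> rw [h] at h6 <;> linarith

end

section

variable (F : Type) [Field F] [NumberField F]

/-- Systems of local root numbers exist. -/
theorem exists_local (E : WeierstrassCurve ℚ) (g : ℕ) {d : ℤ} :
    ∃ wE wA, LocalRootNumbers F E g d wE wA := by
  refine ⟨fun _ => 1, fun p => if (p : ℕ) ≠ 2 ∧ GoodReduction p E then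
      (if ((p : ℕ) : ℤ) ∣ d then jacobiSym (-1) p else 1) else
      if (p : ℕ) ≠ 2 ∧ Unramified F p ∧ MultiplicativeReduction p E then jacobiSym d p else 1,
    fun p => Or.inl rfl, fun p _ => rfl, ?_, ?_, ?_, ?_⟩
  · intro p h2 hg
    show (if _ then _ else _) = _
    rw [if_pos ⟨h2, hg⟩]
  · intro p h2 hu hm
    haveI : Fact (p : ℕ).Prime := ⟨p.2⟩
    show (if _ then _ else _) = _
    rw [if_neg fun h => not_mult_of_good h.2 hm, if_pos ⟨h2, hu, hm⟩, one_pow, mul_one]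
  · intro p h2 hu hj
    show (if _ then _ else _) = _
    rw [one_pow]
    have hpd : ¬ ((p : ℕ) : ℤ) ∣ d := by
      intro h
      rw [jacobiSym.eq_zero_iff.2 ⟨p.2.ne_zero, ?_⟩] at hj
      · exact zero_ne_one hj
      · intro hg
        have h3 : ((p : ℕ) : ℤ) ∣ (Int.gcd d (p : ℕ) : ℤ) := Int.dvd_coe_gcd h dvd_rfl
        rw [hg] at h3
        have h4 : (p : ℕ) ∣ 1 := by exact_mod_cast h3
        exact p.2.one_lt.ne' (Nat.dvd_one.1 h4)
    rw [if_neg hpd, hj]
    split_ifs <;> rfl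
  · intro p h2 hu _
    show (if _ then _ else _) = _
    rw [if_neg fun h => h.1 h2, if_neg fun h => h.1 h2, one_pow]

end

end Pool.Agent.Zk24.PV
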