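import Pool.Agent.N922.PQ.Final2
import Pool.Agent.N922.PX.Stm

/-!
# A positive proportion over a Galois 2-extension of `ℚ` in which `2` is unramified: counting, with more
# information on the curves

This is `N922/PX/Cnt3.lean` (helper922) with one more piece of information: the prime divisors of the
twisting integer `D` split completely in `M`.
-/

set_option autoImplicit false
set_option linter.all false

open Polynomial IsDedekindDomain WeierstrassCurve WeierstrassCurve.Affine NumberField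
open Pool.Agent.TH115.GD
open scoped Classical IntermediateField

namespace Pool.Agent.Zk24.PV

open Pool.Agent.N874.PP (Tup chA chB gq tau Two Ev Sq1 U0 sW IsBeta Rt)
open Pool.Agent.N874.PM (PLoc Lies SelR ShaR)
open Pool.Agent.N922.PQ

/-- More information on the curves which we find: `(A, B) = (a D ^ 2, b D ^ 3)`. -/
structure Twist (M : Type) [Field M] [NumberField M] (δ : ℤ) (p : ℤ × ℤ) (a b D : ℤ) : Prop where
  eA : p.1 = a * D ^ 2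
  eB : p.2 = b * D ^ 3
  pos : 0 < 4 * a ^ 3 + 27 * b ^ 2
  sq : Squarefree (4 * a ^ 3 + 27 * b ^ 2)
  oa : Odd a
  ob : Odd b
  D0 : D ≠ 0
  oA : Odd p.1
  four : (4 : ℤ) ∣ p.1 - p.2
  irr : ∀ P : ℤ, IsPr P → (P = 2 ∨ P = 3 ∨ P ∣ δ) → ¬ P ∣ D ∧ ∀ z : ℤ, ¬ P ∣ z ^ 3 + a * z + b
  spl : ∀ P : ℤ, IsPr P → P ∣ D → ¬ P ∣ 4 * a ^ 3 + 27 * b ^ 2 ∧
    ∀ v : HeightOneSpectrum (𝓞 M), Ov P v → ∀ s : M, s ≠ 0 → ∃ r : ℚ,
      v.valuation M (s - algebraMap ℚ M r) < v.valuation M s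

/-- The main theorem from the parts; with a bound of order `X ^ 5`. -/
theorem mainX (H : Parts2) (hLB : S_LB) (hFAM : S_FAM2) (hBAD : S_BAD)
    (hTCH : S_TCH) (hGEN : S_GEN) (hSPL : S_SPL) (hGFR : Pool.Agent.N874.PM.S_GFR)
    (hFINM : S_FINM) (hTOR : S_TOR) (hCRV : S_CRV)
    (M : Type) [Field M] [NumberField M]
    [IsGalois ℚ M] {n : ℕ}
    (hM : Module.finrank ℚ M = 2 ^ n) (hn : 1 ≤ n)
    (hur : ∀ w : HeightOneSpectrum (𝓞 M), Ov 2 w → w.valuation M 2 = WithZero.exp (-1 : ℤ)) :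
    ∃ δ : ℤ, δ ≠ 0 ∧
    (∀ v : HeightOneSpectrum (𝓞 M), ¬ Ov δ v → ∃ 𝔓 : HeightOneSpectrum (𝓞 ℚ),
      ∀ x : ℚ, v.valuation M (algebraMap ℚ M x) = 𝔓.valuation ℚ x) ∧
    ∃ (P X₀ : ℕ) (c : ℝ), 0 < c ∧ 1 ≤ P ∧ ∀ X : ℕ, X₀ ≤ X → ∀ H : ℕ, 27 * (X * P) ^ 6 ≤ H →
      c * (X : ℝ) ^ 5 ≤ ({p : ℤ × ℤ | Crv H p.1 p.2 ∧ GoodV (M := M) (𝓞 M) p ∧
        ∃ a b D, Twist M δ p a b D}.ncard : ℝ) := by
  obtain ⟨w₀, hw₀⟩ := exists_over (𝓞 M)
  obtain ⟨κ, hLB'⟩ := hLB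
  obtain ⟨γ, g, δ, hG, hdeg⟩ := hGEN M
  refine ⟨δ, hG.ne, (H.p.ur ℚ M (𝓞 ℚ) (𝓞 M) γ g δ hG).1, ?_⟩
  -- the prime divisors of `δ`
  obtain ⟨T₀, hT₀, hδ₀⟩ : ∃ T : Finset ℤ, (∀ P ∈ T, IsPr P) ∧
      ∀ P : ℤ, IsPr P → P ∣ δ → P ∈ T := by
    have hf : {P : ℤ | IsPr P ∧ P ∣ δ}.Finite := by
      refine (Set.finite_Icc (-|δ|) |δ|).subset ?_
      rintro P ⟨-, h⟩
      have h3 : |P| ≤ |δ| := Int.le_of_dvd (abs_pos.2 hG.ne) ((abs_dvd_abs P δ).2 h)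
      exact abs_le.1 h3
    refine ⟨hf.toFinset, fun P hP => ?_, fun P h1 h2 => ?_⟩
    · exact (hf.mem_toFinset.1 hP).1
    · exact hf.mem_toFinset.2 ⟨h1, h2⟩
  obtain ⟨T, A, B, hTT, hT⟩ := hTCH T₀ hT₀
  have hδ : ∀ P : ℤ, IsPr P → P ∣ δ → P ∈ T := fun P h1 h2 => hTT (hδ₀ P h1 h2)
  obtain ⟨S, s, c, hS, hdis, hsp, hc, X₀, hX₀⟩ := good_card2 hFAM hBAD κ hT
    (fun Q => SplitMod Q g) (hSPL M γ g δ hG hdeg T)
  have hSpos : 0 < ∏ Q ∈ S, Q := Finset.prod_pos fun Q hQ => (hS Q hQ).1.1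
  refine ⟨(∏ Q ∈ S, Q).toNat, X₀, c / 2 ^ S.card,
    by positivity, by omega, fun X hX Hh hHh => ?_⟩
  have hN := hX₀ X hX
  set Hs := {p : ℤ × ℤ | Crv Hh p.1 p.2 ∧ GoodV (M := M) (𝓞 M) p ∧
    ∃ a b D, Twist M δ p a b D} with hH
  set G := {p : ℤ × ℤ | (Fam X S s T A B p.1 p.2 ∧ (4 : ℤ) ∣ p.1 - p.2) ∧
    ¬ LBad κ X S s p.1 p.2} with hG'
  have hHf : Hs.Finite := (crv_fin Hh).subset fun p hp => hp.1
  have hbd : 27 * ((X : ℤ) * ∏ Q ∈ S, Q) ^ 6 ≤ Hh := by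
    have h1 : ((27 * (X * (∏ Q ∈ S, Q).toNat) ^ 6 : ℕ) : ℤ) ≤ Hh := by exact_mod_cast hHh
    have e1 : (((∏ Q ∈ S, Q).toNat : ℕ) : ℤ) = ∏ Q ∈ S, Q := Int.toNat_of_nonneg hSpos.le
    rw [Nat.cast_mul, Nat.cast_pow, Nat.cast_mul, e1] at h1
    exact_mod_cast h1
  have hcard := card_fib hHf S
    (fun (J : Finset ℤ) (p : ℤ × ℤ) => (p.1 * (∏ Q ∈ J, Q) ^ 2, p.2 * (∏ Q ∈ J, Q) ^ 3)) (G := G) (by
      rintro p ⟨⟨hpF, hp4⟩, hnb⟩
      obtain ⟨J, hJ, hsel⟩ := selR2 H hLB' M (𝓞 M) hM hur hS hpF hp4 hnb hT hG hsp hδ hdis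
      refine ⟨J, hJ, ?_⟩
      have hcrv := hCRV X Hh S T s A B p.1 p.2 hS hT hpF J hJ hbd
      have h6M : (6 : M) ≠ 0 := by norm_num
      have hdM : 4 * (((p.1 * (∏ Q ∈ J, Q) ^ 2 : ℤ)) : M) ^ 3 +
          27 * (((p.2 * (∏ Q ∈ J, Q) ^ 3 : ℤ)) : M) ^ 2 ≠ 0 := by
        have h1 := hcrv.disc
        exact_mod_cast h1
      obtain ⟨h2, h3⟩ := hGFR M (𝓞 M) _ _ h6M hdM hsel
      have hfin := hFINM M _ _ hdM h2
      have hD8 : (∏ Q ∈ J, Q) % 8 = 1 := prod_mod8 fun Q hQ => (hS Q (hJ hQ)).2.1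
      obtain ⟨ha, hb⟩ := odd_of (fam_nt hT hpF hT.1)
      have hAodd : Odd (p.1 * (∏ Q ∈ J, Q) ^ 2) := by
        refine ha.mul (Odd.pow ?_)
        rw [Int.odd_iff]
        omega
      have h4 : (4 : ℤ) ∣ p.1 * (∏ Q ∈ J, Q) ^ 2 - p.2 * (∏ Q ∈ J, Q) ^ 3 := by
        obtain ⟨k, hk⟩ : ∃ k, (∏ Q ∈ J, Q) = 8 * k + 1 := ⟨(∏ Q ∈ J, Q) / 8, by omega⟩
        obtain ⟨l, hl⟩ := hp4
        have e : p.1 = p.2 + 4 * l := by linarith
        rw [hk, e]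
        exact ⟨l * (8 * k + 1) ^ 2 - 2 * k * p.2 * (8 * k + 1) ^ 2, by ring⟩
      have htor := hTOR M (𝓞 M) w₀ (hur w₀ hw₀) _ _ hAodd h4 hfin (by
        haveI := hfin
        exact odd_card (G := Pt (sW (((p.1 * (∏ Q ∈ J, Q) ^ 2 : ℤ)) : M)
          (((p.2 * (∏ Q ∈ J, Q) ^ 3 : ℤ)) : M)) M) h2)
      refine ⟨hcrv, ⟨hsel, htor, h3⟩, p.1, p.2, ∏ Q ∈ J, Q, rfl, rfl, ?_, hpF.sq, ha, hb,
        (Finset.prod_pos fun Q hQ => (hS Q (hJ hQ)).1.1).ne', hAodd, h4, ?_, ?_⟩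
      · have h5 := hpF.pa
        positivity
      · intro P hP hP'
        have hPT : P ∈ T := by
          rcases hP' with rfl | rfl | h5
          · exact hT.1
          · exact hT.2.1
          · exact hδ P hP h5
        refine ⟨fun hd => ?_, fam_nt hT hpF hPT⟩
        obtain ⟨Q, hQ, hPQ⟩ := (hP.2.dvd_finset_prod_iff _).1 hd
        have hQS := hS Q (hJ hQ)
        have : P = Q := by
          by_contra hne
          have h6 := isCoprime_of hP hQS.1 hne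
          exact hP.2.not_unit (h6.isUnit_of_dvd' dvd_rfl hPQ)
        exact Finset.disjoint_left.1 hdis (hJ hQ) (this ▸ hPT)
      · intro P hP hd
        obtain ⟨Q, hQ, hPQ⟩ := (hP.2.dvd_finset_prod_iff _).1 hd
        have hQS := hS Q (hJ hQ)
        have hPe : P = Q := by
          by_contra hne
          have h6 := isCoprime_of hP hQS.1 hne
          exact hP.2.not_unit (h6.isUnit_of_dvd' dvd_rfl hPQ)
        subst hPe
        constructor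
        · intro h5
          have h6 : P ∣ 4 * p.1 ^ 3 := by
            have h7 : P ∣ 27 * p.2 ^ 2 := dvd_mul_of_dvd_right
              (dvd_pow (hpF.rb P (hJ hQ)) two_ne_zero) _
            have := dvd_sub h5 h7
            rwa [add_sub_cancel_right] at this
          have hP8 := hQS.2.1
          have h8 : ¬ P ∣ 4 := by
            intro h9
            have := Int.le_of_dvd (by norm_num) h9
            have hp0 := hP.1
            have : P = 1 := by omega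
            exact hP.2.not_unit (this ▸ isUnit_one)
          rcases hP.2.dvd_or_dvd h6 with h9 | h9
          · exact h8 h9
          · have h10 : P ∣ p.1 := hP.2.dvd_of_dvd_pow h9
            have h11 : P ∣ s P := by
              have := dvd_sub h10 (hpF.ra P (hJ hQ))
              rwa [sub_sub_cancel] at this
            exact hQS.2.2 0 (by simpa using h11)
        · intro v hv
          refine H.p.spd ℚ M (𝓞 M) γ g δ hG P hP.2 (hsp P (hJ hQ)) v hv ?_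
          intro h5
          obtain ⟨P', hP', hv'⟩ := exists_below v
          have e1 : P' = P := below_unique hP' hP hv' hv
          subst e1
          have h6 : P' ∣ δ := by
            by_contra h7
            have h8 : IsCoprime P' δ := (hP'.2.irreducible.coprime_iff_not_dvd).2 h7
            exact one_mem_of h8 hv' h5
          exact Finset.disjoint_left.1 hdis (hJ hQ) (hδ _ hP' h6)) (by
      intro J hJ x hx y hy hxy
      have hD0 : (∏ Q ∈ J, Q) ≠ 0 := by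
        rw [Finset.prod_ne_zero_iff]
        exact fun Q hQ => (hS Q (hJ hQ)).1.2.ne_zero
      rw [Prod.mk.injEq] at hxy
      exact twist_inj hD0 hxy.1 hxy.2)
  have hcard' : (G.ncard : ℝ) ≤ 2 ^ S.card * Hs.ncard := by exact_mod_cast hcard
  calc c / 2 ^ S.card * (X : ℝ) ^ 5
      = c * (X : ℝ) ^ 5 / 2 ^ S.card := by ring
    _ ≤ (G.ncard : ℝ) / 2 ^ S.card := by gcongr
    _ ≤ (2 ^ S.card * Hs.ncard) / 2 ^ S.card := by gcongr
    _ = Hs.ncard := by field_simp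

/-- A positive proportion, with information on the curves. -/
theorem finalX (M : Type) [Field M] [NumberField M]
    [IsGalois ℚ M] {n : ℕ}
    (hM : Module.finrank ℚ M = 2 ^ n) (hn : 1 ≤ n)
    (hur : ∀ w : HeightOneSpectrum (𝓞 M), Ov 2 w → w.valuation M 2 = WithZero.exp (-1 : ℤ)) :
    ∃ δ : ℤ, δ ≠ 0 ∧
    (∀ v : HeightOneSpectrum (𝓞 M), ¬ Ov δ v → ∃ 𝔓 : HeightOneSpectrum (𝓞 ℚ),
      ∀ x : ℚ, v.valuation M (algebraMap ℚ M x) = 𝔓.valuation ℚ x) ∧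
    ∃ c : ℝ, 0 < c ∧ ∃ H₀ : ℕ, ∀ H ≥ H₀, {p : ℤ × ℤ | Crv H p.1 p.2}.Finite ∧
    c * ({p : ℤ × ℤ | Crv H p.1 p.2}.ncard : ℝ) ≤
      ({p : ℤ × ℤ | Crv H p.1 p.2 ∧ (GoodV (M := M) (𝓞 M) p ∧
        ∃ a b D, Twist M δ p a b D)}.ncard : ℝ) := by
  obtain ⟨δ, h0, h1, P, X₀, c, hc, hP, h⟩ := mainX parts2 lb Pool.Agent.N615.PV.fam2 bad
    Pool.Agent.N954.PQ.tch Pool.Agent.N40.PQ.gen Pool.Agent.N40.PQ.spl N650.PM.gfr
    Pool.Agent.N273.PQ.finm Pool.Agent.N137.PV.tor Pool.Agent.N707.PQ.crv M hM hn hur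
  exact ⟨δ, h0, h1, Pool.Agent.N607.PQ.cnt (fun p => GoodV (M := M) (𝓞 M) p ∧
    ∃ a b D, Twist M δ p a b D) P X₀ c hc hP fun X hX Hh hHh => h X hX Hh hHh⟩

end Pool.Agent.Zk24.PV
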