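import Mathlib

/-!
# The abelian varieties `E ⊗ M` and their local root numbers: definitions, and the product of the
# local root numbers
-/

set_option autoImplicit false
set_option linter.all false

open IsDedekindDomain NumberField
open scoped Classical

namespace Pool.Agent.Zk24.PV

/-- The coefficients of the equation are integral at the prime number `p`. -/
structure IntegralAt (p : ℕ) (W : WeierstrassCurve ℚ) : Prop where
  a₁ : padicNorm p W.a₁ ≤ 1
  a₂ : padicNorm p W.a₂ ≤ 1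
  a₃ : padicNorm p W.a₃ ≤ 1
  a₄ : padicNorm p W.a₄ ≤ 1
  a₆ : padicNorm p W.a₆ ≤ 1

/-- Good reduction at `p`. -/
def GoodReduction (p : ℕ) (W : WeierstrassCurve ℚ) : Prop :=
  ∃ C : WeierstrassCurve.VariableChange ℚ, IntegralAt p (C • W) ∧ padicNorm p (C • W).Δ = 1

/-- Multiplicative reduction at `p`. -/
def MultiplicativeReduction (p : ℕ) (W : WeierstrassCurve ℚ) : Prop :=
  ∃ C : WeierstrassCurve.VariableChange ℚ, IntegralAt p (C • W) ∧ padicNorm p (C • W).Δ < 1 ∧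
    padicNorm p (C • W).c₄ = 1

/-- The equation is integral at `p`, the point `(0, 0)` is singular modulo `p`, `p` divides `b₂` and
`p ^ 2` does not divide `a₆`: by Tate's algorithm the equation is minimal at `p`, the Kodaira type is
II, and the exponent of `p` in the conductor is the exponent of `p` in the discriminant. -/
structure TypeTwo (p : ℕ) (W : WeierstrassCurve ℚ) : Prop where
  int : IntegralAt p W
  a₃ : padicNorm p W.a₃ < 1
  a₄ : padicNorm p W.a₄ < 1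
  b₂ : padicNorm p W.b₂ < 1
  a₆ : padicNorm p W.a₆ = (p : ℚ)⁻¹

/-- The prime number `p` is unramified in `F`. -/
def Unramified (F : Type) [Field F] [NumberField F] (p : ℕ) : Prop :=
  ∀ v : HeightOneSpectrum (𝓞 F), (p : 𝓞 F) ∈ v.asIdeal → (p : 𝓞 F) ∉ v.asIdeal ^ 2

/-- The properties of the local root numbers `wE p = w(E / ℚ_p)` and `wA p = w(A / ℚ_p)` which we
use, for `A = E ⊗ M` with a lattice `M` of rank `g` and of determinant the quadratic character of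
`ℚ(√d)`. -/
structure LocalRootNumbers (F : Type) [Field F] [NumberField F] (E : WeierstrassCurve ℚ) (g : ℕ)
    (d : ℤ) (wE wA : Nat.Primes → ℤ) : Prop where
  signE : ∀ p, wE p = 1 ∨ wE p = -1
  goodE : ∀ p : Nat.Primes, GoodReduction p E → wE p = 1
  good : ∀ p : Nat.Primes, (p : ℕ) ≠ 2 → GoodReduction p E →
    wA p = if ((p : ℕ) : ℤ) ∣ d then jacobiSym (-1) p else 1
  mult : ∀ p : Nat.Primes, (p : ℕ) ≠ 2 → Unramified F p → MultiplicativeReduction p E →
    wA p = jacobiSym d p * wE p ^ g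
  split : ∀ p : Nat.Primes, (p : ℕ) ≠ 2 → Unramified F p → jacobiSym d p = 1 → wA p = wE p ^ g
  two : ∀ p : Nat.Primes, (p : ℕ) = 2 → Unramified F p →
    (∃ C : WeierstrassCurve.VariableChange ℚ, TypeTwo p (C • E) ∧
      Even (padicValRat p (C • E).Δ)) → wA p = wE p ^ g

/-- The global root number. -/
noncomputable def rootNumber (g : ℕ) (w : Nat.Primes → ℤ) : ℤ := (-1) ^ g * ∏ᶠ p, w p

/-! ### Valuations of the curves `y ^ 2 = x ^ 3 + A x + B` -/

theorem norm_int (p : ℕ) [Fact p.Prime] (n : ℤ) : padicNorm p (n : ℚ) ≤ 1 := padicNorm.of_int n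

theorem norm_int_one {p : ℕ} [Fact p.Prime] {n : ℤ} : padicNorm p (n : ℚ) = 1 ↔ ¬ (p : ℤ) ∣ n :=
  padicNorm.int_eq_one_iff n

theorem norm_int_lt {p : ℕ} [Fact p.Prime] {n : ℤ} : padicNorm p (n : ℚ) < 1 ↔ (p : ℤ) ∣ n :=
  padicNorm.int_lt_one_iff n

/-- The curve `y ^ 2 = x ^ 3 + A x + B`. -/
def curve (p : ℤ × ℤ) : WeierstrassCurve ℚ := ⟨0, 0, 0, (p.1 : ℚ), (p.2 : ℚ)⟩

theorem curve_int (l : ℕ) [Fact l.Prime] (p : ℤ × ℤ) : IntegralAt l (curve p) := by
  constructor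
  · show padicNorm l 0 ≤ 1; simp
  · show padicNorm l 0 ≤ 1; simp
  · show padicNorm l 0 ≤ 1; simp
  · exact norm_int l p.1
  · exact norm_int l p.2

theorem curve_disc (p : ℤ × ℤ) : (curve p).Δ = ((-16 * (4 * p.1 ^ 3 + 27 * p.2 ^ 2) : ℤ) : ℚ) := by
  simp only [curve, WeierstrassCurve.Δ, WeierstrassCurve.b₂, WeierstrassCurve.b₄,
    WeierstrassCurve.b₆, WeierstrassCurve.b₈]
  push_cast
  ring

theorem curve_c4 (p : ℤ × ℤ) : (curve p).c₄ = ((-48 * p.1 : ℤ) : ℚ) := by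
  simp only [curve, WeierstrassCurve.c₄, WeierstrassCurve.b₂, WeierstrassCurve.b₄]
  push_cast
  ring

theorem good_curve {l : ℕ} [Fact l.Prime] {p : ℤ × ℤ} (h2 : l ≠ 2)
    (h : ¬ (l : ℤ) ∣ 4 * p.1 ^ 3 + 27 * p.2 ^ 2) : GoodReduction l (curve p) := by
  refine ⟨1, ?_, ?_⟩
  · rw [one_smul]; exact curve_int l p
  · rw [one_smul, curve_disc, norm_int_one]
    have hl : Prime (l : ℤ) := Nat.prime_iff_prime_int.1 Fact.out
    intro h3
    rcases hl.dvd_or_dvd h3 with h4 | h4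
    · have h5 : (l : ℤ) ∣ 2 ^ 4 := by
        have : (2 : ℤ) ^ 4 = -(-16) := by norm_num
        rw [this]; exact (dvd_neg.2 h4)
      have h6 := hl.dvd_of_dvd_pow h5
      have h7 : l ∣ 2 := by exact_mod_cast h6
      exact h2 ((Nat.prime_dvd_prime_iff_eq Fact.out Nat.prime_two).1 h7)
    · exact h h4

theorem mult_curve {l : ℕ} [Fact l.Prime] {p : ℤ × ℤ} (h2 : l ≠ 2) (h3 : l ≠ 3)
    (hA : ¬ (l : ℤ) ∣ p.1)
    (h : (l : ℤ) ∣ 4 * p.1 ^ 3 + 27 * p.2 ^ 2) : MultiplicativeReduction l (curve p) := by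
  have hl : Prime (l : ℤ) := Nat.prime_iff_prime_int.1 Fact.out
  refine ⟨1, ?_, ?_, ?_⟩
  · rw [one_smul]; exact curve_int l p
  · rw [one_smul, curve_disc, norm_int_lt]
    exact dvd_mul_of_dvd_right h _
  · rw [one_smul, curve_c4, norm_int_one]
    intro h4
    rcases hl.dvd_or_dvd h4 with h5 | h5
    · have h6 : (l : ℤ) ∣ 2 ^ 4 * 3 := by
        have : (2 : ℤ) ^ 4 * 3 = -(-48) := by norm_num
        rw [this]; exact (dvd_neg.2 h5)
      rcases hl.dvd_or_dvd h6 with h7 | h7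
      · have h8 := hl.dvd_of_dvd_pow h7
        have h9 : l ∣ 2 := by exact_mod_cast h8
        exact h2 ((Nat.prime_dvd_prime_iff_eq Fact.out Nat.prime_two).1 h9)
      · have h9 : l ∣ 3 := by exact_mod_cast h7
        exact h3 ((Nat.prime_dvd_prime_iff_eq Fact.out Nat.prime_three).1 h9)
    · exact hA h5

/-- The curves `y ^ 2 = x ^ 3 + A x + B` with odd `A`, `B` and `4 ∣ A - B` have type II at `2`, and
the exponent of the conductor at `2` is `4`. -/
theorem two_curve {p : ℤ × ℤ} (hA : Odd p.1) (h4 : (4 : ℤ) ∣ p.1 - p.2) :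
    ∃ C : WeierstrassCurve.VariableChange ℚ, TypeTwo 2 (C • curve p) ∧
      Even (padicValRat 2 (C • curve p).Δ) := by
  haveI : Fact (Nat.Prime 2) := ⟨Nat.prime_two⟩
  obtain ⟨k, hk⟩ := h4
  obtain ⟨m, hm⟩ := hA
  have hB : p.2 = 2 * (m - 2 * k) + 1 := by omega
  set C : WeierstrassCurve.VariableChange ℚ := ⟨1, 1, 0, 1⟩ with hC
  have e1 : (C • curve p).a₁ = ((0 : ℤ) : ℚ) := by
    rw [WeierstrassCurve.variableChange_a₁]; simp [hC, curve]
  have e2 : (C • curve p).a₂ = ((3 : ℤ) : ℚ) := by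
    rw [WeierstrassCurve.variableChange_a₂]; simp [hC, curve]
  have e3 : (C • curve p).a₃ = ((2 : ℤ) : ℚ) := by
    rw [WeierstrassCurve.variableChange_a₃]; simp [hC, curve]
  have e4 : (C • curve p).a₄ = ((p.1 + 3 : ℤ) : ℚ) := by
    rw [WeierstrassCurve.variableChange_a₄]; simp [hC, curve]
  have e6 : (C • curve p).a₆ = ((p.1 + p.2 : ℤ) : ℚ) := by
    rw [WeierstrassCurve.variableChange_a₆]; simp [hC, curve]; ring
  have eb : (C • curve p).b₂ = ((12 : ℤ) : ℚ) := by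
    rw [WeierstrassCurve.variableChange_b₂]; simp [hC, curve, WeierstrassCurve.b₂]
  have eD : (C • curve p).Δ = ((-16 * (4 * p.1 ^ 3 + 27 * p.2 ^ 2) : ℤ) : ℚ) := by
    rw [WeierstrassCurve.variableChange_Δ, curve_disc]; simp [hC]
  have c2 : ∀ n : ℤ, (2 : ℤ) ∣ n → padicNorm 2 (n : ℚ) < 1 := fun n h => norm_int_lt.2 h
  refine ⟨C, ⟨⟨?_, ?_, ?_, ?_, ?_⟩, ?_, ?_, ?_, ?_⟩, ?_⟩
  · rw [e1]; exact norm_int 2 _
  · rw [e2]; exact norm_int 2 _
  · rw [e3]; exact norm_int 2 _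
  · rw [e4]; exact norm_int 2 _
  · rw [e6]; exact norm_int 2 _
  · rw [e3]; exact c2 _ ⟨1, by norm_num⟩
  · rw [e4]; exact c2 _ (by omega)
  · rw [eb]; exact c2 _ ⟨6, by norm_num⟩
  · rw [e6]
    have h5 : p.1 + p.2 = 2 * (2 * (m - k) + 1) := by omega
    have h6 : ¬ (2 : ℤ) ∣ 2 * (m - k) + 1 := by omega
    rw [h5, Int.cast_mul, padicNorm.mul, norm_int_one.2 h6, mul_one]
    have : ((2 : ℤ) : ℚ) = ((2 : ℕ) : ℚ) := by norm_num
    rw [this]
    exact padicNorm.padicNorm_p_of_prime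
  · rw [eD]
    have h6 : ¬ (2 : ℤ) ∣ (4 * p.1 ^ 3 + 27 * p.2 ^ 2) := by
      have h7 : Odd (27 * p.2 ^ 2) := (by decide : Odd (27 : ℤ)).mul
        (Odd.pow ⟨m - 2 * k, hB⟩)
      have h8 : Even (4 * p.1 ^ 3) := (by decide : Even (4 : ℤ)).mul_right _
      rw [← even_iff_two_dvd]
      exact Int.not_even_iff_odd.2 (h8.add_odd h7)
    have h9 : (4 * p.1 ^ 3 + 27 * p.2 ^ 2) ≠ 0 := by
      intro h; rw [h] at h6; exact h6 (dvd_zero _)
    have e : ((-16 * (4 * p.1 ^ 3 + 27 * p.2 ^ 2) : ℤ) : ℚ) =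
        ((2 : ℕ) : ℚ) ^ 4 * (((-(4 * p.1 ^ 3 + 27 * p.2 ^ 2) : ℤ)) : ℚ) := by
      push_cast; ring
    have h10 : (((-(4 * p.1 ^ 3 + 27 * p.2 ^ 2) : ℤ)) : ℚ) ≠ 0 := by
      exact_mod_cast neg_ne_zero.2 h9
    rw [e, padicValRat.mul (pow_ne_zero _ (by norm_num)) h10, padicValRat.pow,
      padicValRat.self (by norm_num), padicValRat.of_int,
      padicValInt.eq_zero_of_not_dvd (by
        intro h; exact h6 ((dvd_neg).1 (by exact_mod_cast h)))]
    decide

/-- The reduction cannot be both good and multiplicative. -/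
theorem not_mult_of_good {p : ℕ} [Fact p.Prime] {W : WeierstrassCurve ℚ}
    (hg : GoodReduction p W) : ¬ MultiplicativeReduction p W := by
  rintro ⟨C', hI', h3, h4⟩
  obtain ⟨C, hI, hΔ⟩ := hg
  have c1 : ∀ x y : ℚ, padicNorm p x ≤ 1 → padicNorm p y ≤ 1 → padicNorm p (x + y) ≤ 1 :=
    fun x y hx hy => (padicNorm.nonarchimedean).trans (max_le hx hy)
  have c1' : ∀ x y : ℚ, padicNorm p x ≤ 1 → padicNorm p y ≤ 1 → padicNorm p (x - y) ≤ 1 :=
    fun x y hx hy => (padicNorm.sub).trans (max_le hx hy)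
  have c2 : ∀ x y : ℚ, padicNorm p x ≤ 1 → padicNorm p y ≤ 1 → padicNorm p (x * y) ≤ 1 := by
    intro x y hx hy
    rw [padicNorm.mul]
    exact mul_le_one₀ hx (padicNorm.nonneg _) hy
  have cn : ∀ n : ℕ, padicNorm p (n : ℚ) ≤ 1 := fun n => padicNorm.of_nat n
  set U := C' • W with hU
  set V := C • W with hV
  have hV4 : padicNorm p V.c₄ ≤ 1 := by
    have hb2 : padicNorm p V.b₂ ≤ 1 := by
      rw [WeierstrassCurve.b₂, pow_two]
      exact c1 _ _ (c2 _ _ hI.a₁ hI.a₁) (c2 _ _ (by exact_mod_cast cn 4) hI.a₂)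
    have hb4 : padicNorm p V.b₄ ≤ 1 := by
      rw [WeierstrassCurve.b₄]
      exact c1 _ _ (c2 _ _ (by exact_mod_cast cn 2) hI.a₄) (c2 _ _ hI.a₁ hI.a₃)
    rw [WeierstrassCurve.c₄, pow_two]
    exact c1' _ _ (c2 _ _ hb2 hb2) (c2 _ _ (by exact_mod_cast cn 24) hb4)
  have key : V.c₄ ^ 3 * U.Δ = U.c₄ ^ 3 * V.Δ := by
    rw [hU, hV, WeierstrassCurve.variableChange_c₄, WeierstrassCurve.variableChange_c₄,
      WeierstrassCurve.variableChange_Δ, WeierstrassCurve.variableChange_Δ]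
    ring
  have h9 := congrArg (padicNorm p) key
  have hp3 : ∀ x : ℚ, padicNorm p (x ^ 3) = padicNorm p x ^ 3 := fun x => by
    rw [pow_succ, pow_two, padicNorm.mul, padicNorm.mul]; ring
  rw [padicNorm.mul, padicNorm.mul, hp3, hp3, h4, hΔ, one_pow, one_mul] at h9
  have h10 : padicNorm p V.c₄ ^ 3 * padicNorm p U.Δ < 1 :=
    mul_lt_one_of_nonneg_of_lt_one_right (pow_le_one₀ (padicNorm.nonneg _) hV4)
      (padicNorm.nonneg _) h3
  rw [h9] at h10
  exact lt_irrefl _ h10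

/-! ### Jacobi symbols -/

theorem jac_prod (a : ℤ) (S : Finset ℕ) (h : ∀ p ∈ S, p ≠ 0) :
    jacobiSym a (∏ p ∈ S, p) = ∏ p ∈ S, jacobiSym a p := by
  induction S using Finset.induction_on with
  | empty => simp
  | insert q S hq ih =>
    have h1 : ∀ p ∈ S, p ≠ 0 := fun p hp => h p (Finset.mem_insert_of_mem hp)
    haveI : NeZero q := ⟨h q (Finset.mem_insert_self q S)⟩
    haveI : NeZero (∏ p ∈ S, p) := ⟨Finset.prod_ne_zero_iff.2 h1⟩
    rw [Finset.prod_insert hq, Finset.prod_insert hq, jacobiSym.mul_right, ih h1]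

theorem jac_sq (a : ℤ) {n : ℕ} (hn : Squarefree n) :
    ∏ p ∈ n.primeFactors, jacobiSym a p = jacobiSym a n := by
  rw [← jac_prod a _ fun p hp => (Nat.prime_of_mem_primeFactors hp).ne_zero,
    Nat.prod_primeFactors_of_squarefree hn]

/-- `∏_{p ∣ d} (-1 / p)` is the sign of `d` for squarefree `d = 1` modulo `4`. -/
theorem neg_one_prod {d : ℤ} (hd : Squarefree d) (h4 : d % 4 = 1) :
    ∏ p ∈ d.natAbs.primeFactors, jacobiSym (-1) p = if d < 0 then -1 else 1 := by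
  have h1 : Squarefree d.natAbs := Int.squarefree_natAbs.2 hd
  have hodd : Odd d.natAbs := by
    rw [Int.natAbs_odd, Int.odd_iff]
    omega
  rw [jac_sq _ h1, jacobiSym.at_neg_one hodd]
  by_cases h : d < 0
  · rw [if_pos h]
    have h2 : d.natAbs % 4 = 3 := by omega
    exact ZMod.χ₄_nat_three_mod_four h2
  · rw [if_neg h]
    have h2 : d.natAbs % 4 = 1 := by omega
    exact ZMod.χ₄_nat_one_mod_four h2

end Pool.Agent.Zk24.PV
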