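import Pool.Agent.Zk24.PV.Def

/-!
# The product of the local root numbers of `E ⊗ M`
-/

set_option autoImplicit false
set_option linter.all false

open IsDedekindDomain NumberField
open scoped Classical

namespace Pool.Agent.Zk24.PV

theorem finprod_primes (f : ℕ → ℤ) {n : ℕ} (hn : n ≠ 0)
    (h : ∀ p : ℕ, p.Prime → ¬ p ∣ n → f p = 1) :
    ∏ᶠ p : Nat.Primes, f p = ∏ p ∈ n.primeFactors, f p := by
  set S : Finset Nat.Primes := n.primeFactors.subtype Nat.Prime with hS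
  have hmem : ∀ p : Nat.Primes, p ∈ S ↔ (p : ℕ) ∈ n.primeFactors := fun p => Finset.mem_subtype
  refine (finprod_eq_finset_prod_of_mulSupport_subset (fun p : Nat.Primes => f (p : ℕ))
    (s := S) ?_).trans ?_
  · intro p hp
    rw [Function.mem_mulSupport] at hp
    rw [Finset.mem_coe, hmem, Nat.mem_primeFactors]
    refine ⟨p.2, ?_, hn⟩
    by_contra h1
    exact hp (h p p.2 h1)
  · refine Finset.prod_bij (fun (p : Nat.Primes) _ => (p : ℕ)) ?_ ?_ ?_ ?_
    · intro p hp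
      exact (hmem p).1 hp
    · intro p _ q _ hpq
      exact Subtype.ext hpq
    · intro q hq
      exact ⟨⟨q, Nat.prime_of_mem_primeFactors hq⟩, (hmem _).2 hq, rfl⟩
    · intro p _
      rfl

theorem finite_primes {α : Type} (f : Nat.Primes → α) (a : α) {n : ℕ} (hn : n ≠ 0)
    (h : ∀ p : Nat.Primes, ¬ (p : ℕ) ∣ n → f p = a) : {p | f p ≠ a}.Finite := by
  set S : Finset Nat.Primes := n.primeFactors.subtype Nat.Prime with hS
  have hmem : ∀ p : Nat.Primes, p ∈ S ↔ (p : ℕ) ∈ n.primeFactors := fun p => Finset.mem_subtype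
  refine (S.finite_toSet).subset ?_
  intro p hp
  rw [Finset.mem_coe, hmem, Nat.mem_primeFactors]
  refine ⟨p.2, ?_, hn⟩
  by_contra h1
  exact hp (h p h1)

section

variable {F : Type} [Field F] [NumberField F]

/-- **The product of the local root numbers.** -/
theorem root_eq {x : ℤ × ℤ} {a b D : ℤ} (eA : x.1 = a * D ^ 2) (eB : x.2 = b * D ^ 3)
    (pos : 0 < 4 * a ^ 3 + 27 * b ^ 2) (sq : Squarefree (4 * a ^ 3 + 27 * b ^ 2))
    (oa : Odd a) (ob : Odd b) (D0 : D ≠ 0)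
    (h2 : Unramified F 2)
    (hxA : Odd x.1) (hx4 : (4 : ℤ) ∣ x.1 - x.2)
    {d : ℤ} (hd : Squarefree d) (hd4 : d % 4 = 1)
    (hdr : ∀ q : ℕ, q.Prime → (q : ℤ) ∣ d → ¬ Unramified F q)
    (hD : ∀ q : ℕ, q.Prime → (q : ℤ) ∣ D → q ≠ 2 ∧ Unramified F q ∧
      ¬ (q : ℤ) ∣ 4 * a ^ 3 + 27 * b ^ 2 ∧ ∃ c : ℤ, (q : ℤ) ∣ c ^ 2 - d)
    (hN : ∀ q : ℕ, q.Prime → (q : ℤ) ∣ 4 * a ^ 3 + 27 * b ^ 2 → q ≠ 3 ∧ Unramified F q ∧
      ¬ (q : ℤ) ∣ a)
    (hrec : ∏ p ∈ (4 * a ^ 3 + 27 * b ^ 2).natAbs.primeFactors, jacobiSym d p =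
      if d < 0 then -1 else 1)
    {g : ℕ} {wE wA : Nat.Primes → ℤ} (hw : LocalRootNumbers F (curve x) g d wE wA) :
    {p | wE p ≠ 1}.Finite ∧ {p | wA p ≠ 1}.Finite ∧
      rootNumber g wA = rootNumber 1 wE ^ g := by
  set Δ₀ : ℤ := 4 * a ^ 3 + 27 * b ^ 2 with hΔ
  have hdisc : 4 * x.1 ^ 3 + 27 * x.2 ^ 2 = D ^ 6 * Δ₀ := by
    rw [eA, eB, hΔ]; ring
  have hΔodd : Odd Δ₀ := by
    have h1 : Odd (27 * b ^ 2) := (by decide : Odd (27 : ℤ)).mul (ob.pow)
    have h3 : Even (4 * a ^ 3) := (by decide : Even (4 : ℤ)).mul_right _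
    exact h3.add_odd h1
  have hN0 : Δ₀ ≠ 0 := pos.ne'
  have hd0 : d ≠ 0 := hd.ne_zero
  have hPr : ∀ q : ℕ, q.Prime → Prime (q : ℤ) := fun q hq => Nat.prime_iff_prime_int.1 hq
  -- good reduction
  have hgood : ∀ p : Nat.Primes, (p : ℕ) ≠ 2 → ¬ ((p : ℕ) : ℤ) ∣ D → ¬ ((p : ℕ) : ℤ) ∣ Δ₀ →
      GoodReduction p (curve x) := by
    intro p hp2 hpD hpΔ
    haveI : Fact (p : ℕ).Prime := ⟨p.2⟩
    refine good_curve hp2 ?_
    rw [hdisc]
    intro h
    rcases (hPr p p.2).dvd_or_dvd h with h1 | h1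
    · exact hpD ((hPr p p.2).dvd_of_dvd_pow h1)
    · exact hpΔ h1
  -- the modified factor
  set t : ℕ → ℤ := fun p => (if (p : ℤ) ∣ d then jacobiSym (-1) p else 1) *
    (if (p : ℤ) ∣ Δ₀ then jacobiSym d p else 1) with ht
  have hn2d : ¬ (2 : ℤ) ∣ d := by omega
  have hn2Δ : ¬ (2 : ℤ) ∣ Δ₀ := by
    rw [← even_iff_two_dvd]
    exact Int.not_even_iff_odd.2 hΔodd
  have key : ∀ p : Nat.Primes, wA p = wE p ^ g * t p := by
    intro p
    by_cases hp2 : (p : ℕ) = 2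
    · have h1 : Unramified F p := by rw [hp2]; exact h2
      rw [hw.two p hp2 h1 (by rw [hp2]; exact two_curve hxA hx4)]
      have h3 : t p = 1 := by
        simp only [ht, hp2, Nat.cast_ofNat]
        rw [if_neg hn2d, if_neg hn2Δ, one_mul]
      rw [h3, mul_one]
    · by_cases hpΔ : ((p : ℕ) : ℤ) ∣ Δ₀
      · obtain ⟨c1, c2, c3⟩ := hN p p.2 hpΔ
        have hpd : ¬ ((p : ℕ) : ℤ) ∣ d := fun h => hdr p p.2 h c2
        have hpD : ¬ ((p : ℕ) : ℤ) ∣ D := fun h => (hD p p.2 h).2.2.1 hpΔ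
        haveI : Fact (p : ℕ).Prime := ⟨p.2⟩
        have hm : MultiplicativeReduction p (curve x) := by
          refine mult_curve hp2 c1 ?_ ?_
          · rw [eA]
            intro h
            rcases (hPr p p.2).dvd_or_dvd h with h4 | h4
            · exact c3 h4
            · exact hpD ((hPr p p.2).dvd_of_dvd_pow h4)
          · rw [hdisc]
            exact dvd_mul_of_dvd_right hpΔ _
        rw [hw.mult p hp2 c2 hm]
        simp only [ht]
        rw [if_neg hpd, if_pos hpΔ]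
        ring
      · by_cases hpD : ((p : ℕ) : ℤ) ∣ D
        · obtain ⟨c1, c2, c3, c, hc⟩ := hD p p.2 hpD
          have hpd : ¬ ((p : ℕ) : ℤ) ∣ d := fun h => hdr p p.2 h c2
          have hj : jacobiSym d p = 1 := by
            have h4 : jacobiSym d p = jacobiSym (c ^ 2) p := by
              apply jacobiSym.mod_left'
              exact (Int.modEq_iff_dvd.2 hc : d ≡ c ^ 2 [ZMOD ((p : ℕ) : ℤ)])
            rw [h4]
            apply jacobiSym.sq_one'
            rw [Int.gcd_comm, ← Int.isCoprime_iff_gcd_eq_one]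
            refine ((hPr p p.2).irreducible.coprime_iff_not_dvd).2 fun h5 => hpd ?_
            have h6 : ((p : ℕ) : ℤ) ∣ c ^ 2 := dvd_pow h5 two_ne_zero
            have := dvd_sub h6 hc
            rwa [sub_sub_cancel] at this
          rw [hw.split p hp2 c2 hj]
          simp only [ht]
          rw [if_neg hpd, if_neg hpΔ, one_mul, mul_one]
        · have hg := hgood p hp2 hpD hpΔ
          rw [hw.good p hp2 hg, hw.goodE p hg, one_pow, one_mul]
          simp only [ht]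
          rw [if_neg hpΔ, mul_one]
  -- finiteness
  set n : ℕ := (2 * D * Δ₀ * d).natAbs with hn
  have hn0 : n ≠ 0 := by
    rw [hn, Int.natAbs_ne_zero]
    exact mul_ne_zero (mul_ne_zero (mul_ne_zero two_ne_zero D0) hN0) hd0
  have hnd : ∀ p : ℕ, ¬ p ∣ n → p ≠ 2 ∧ ¬ (p : ℤ) ∣ D ∧ ¬ (p : ℤ) ∣ Δ₀ ∧ ¬ (p : ℤ) ∣ d := by
    intro p hp
    have h1 : ¬ (p : ℤ) ∣ 2 * D * Δ₀ * d := fun h => hp (by
      rw [hn, ← Int.natCast_dvd_natCast, Int.dvd_natAbs]; exact h)
    refine ⟨?_, fun h => h1 ?_, fun h => h1 ?_, fun h => h1 ?_⟩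
    · rintro rfl
      apply h1
      exact ⟨D * Δ₀ * d, by push_cast; ring⟩
    · exact ((h.mul_left 2).mul_right Δ₀).mul_right d
    · exact (h.mul_left (2 * D)).mul_right d
    · exact h.mul_left (2 * D * Δ₀)
  have hEone : ∀ p : Nat.Primes, ¬ (p : ℕ) ∣ n → wE p = 1 := by
    intro p hp
    obtain ⟨c1, c2, c3, -⟩ := hnd p hp
    exact hw.goodE p (hgood p c1 c2 c3)
  have htone : ∀ p : ℕ, ¬ p ∣ n → t p = 1 := by
    intro p hp
    obtain ⟨-, -, c3, c4⟩ := hnd p hp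
    simp only [ht]
    rw [if_neg c3, if_neg c4, one_mul]
  have hEf : {p | wE p ≠ 1}.Finite := finite_primes wE 1 hn0 hEone
  have hAf : {p | wA p ≠ 1}.Finite := finite_primes wA 1 hn0 fun p hp => by
    rw [key, hEone p hp, htone p hp, one_pow, one_mul]
  refine ⟨hEf, hAf, ?_⟩
  -- the product of `t`
  have hprod : ∏ᶠ p : Nat.Primes, t p = 1 := by
    have h1 : ∏ᶠ p : Nat.Primes, t p =
        (∏ᶠ p : Nat.Primes, (fun p : ℕ => if (p : ℤ) ∣ d then jacobiSym (-1) p else (1 : ℤ)) p) *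
        ∏ᶠ p : Nat.Primes, (fun p : ℕ => if (p : ℤ) ∣ Δ₀ then jacobiSym d p else (1 : ℤ)) p := by
      rw [← finprod_mul_distrib]
      · exact finite_primes _ 1 hn0 fun p hp => by
          show (if ((p : ℕ) : ℤ) ∣ d then jacobiSym (-1) p else (1 : ℤ)) = 1
          rw [if_neg (hnd p hp).2.2.2]
      · exact finite_primes _ 1 hn0 fun p hp => by
          show (if ((p : ℕ) : ℤ) ∣ Δ₀ then jacobiSym d p else (1 : ℤ)) = 1
          rw [if_neg (hnd p hp).2.2.1]
    have hdn : ∀ (m : ℤ) (q : ℕ), q ∣ m.natAbs ↔ (q : ℤ) ∣ m := fun m q => by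
      rw [← Int.natCast_dvd_natCast, Int.dvd_natAbs]
    have e1 := finprod_primes (fun p : ℕ => if (p : ℤ) ∣ d then jacobiSym (-1) p else (1 : ℤ))
      (n := d.natAbs) (Int.natAbs_ne_zero.2 hd0) (by
        intro p hp h
        show (if (p : ℤ) ∣ d then jacobiSym (-1) p else (1 : ℤ)) = 1
        rw [if_neg fun h5 => h ((hdn d p).2 h5)])
    have e2 := finprod_primes (fun p : ℕ => if (p : ℤ) ∣ Δ₀ then jacobiSym d p else (1 : ℤ))
      (n := Δ₀.natAbs) (Int.natAbs_ne_zero.2 hN0) (by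
        intro p hp h
        show (if (p : ℤ) ∣ Δ₀ then jacobiSym d p else (1 : ℤ)) = 1
        rw [if_neg fun h5 => h ((hdn Δ₀ p).2 h5)])
    refine h1.trans ((congrArg₂ (· * ·) e1 e2).trans ?_)
    · have h3 : ∏ p ∈ d.natAbs.primeFactors,
          (fun p : ℕ => if (p : ℤ) ∣ d then jacobiSym (-1) p else (1 : ℤ)) p =
          ∏ p ∈ d.natAbs.primeFactors, jacobiSym (-1) p := by
        refine Finset.prod_congr rfl fun p hp => ?_
        show (if (p : ℤ) ∣ d then jacobiSym (-1) p else (1 : ℤ)) = _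
        rw [if_pos ((hdn d p).1 (Nat.dvd_of_mem_primeFactors hp))]
      have h4 : ∏ p ∈ Δ₀.natAbs.primeFactors,
          (fun p : ℕ => if (p : ℤ) ∣ Δ₀ then jacobiSym d p else (1 : ℤ)) p =
          ∏ p ∈ Δ₀.natAbs.primeFactors, jacobiSym d p := by
        refine Finset.prod_congr rfl fun p hp => ?_
        show (if (p : ℤ) ∣ Δ₀ then jacobiSym d p else (1 : ℤ)) = _
        rw [if_pos ((hdn Δ₀ p).1 (Nat.dvd_of_mem_primeFactors hp))]
      show (∏ p ∈ d.natAbs.primeFactors,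
          (fun p : ℕ => if (p : ℤ) ∣ d then jacobiSym (-1) p else (1 : ℤ)) p) *
        (∏ p ∈ Δ₀.natAbs.primeFactors,
          (fun p : ℕ => if (p : ℤ) ∣ Δ₀ then jacobiSym d p else (1 : ℤ)) p) = 1
      rw [h3, h4, hrec, neg_one_prod hd (by omega)]
      split_ifs <;> norm_num
  unfold rootNumber
  have h5 : ∏ᶠ p : Nat.Primes, wA p = (∏ᶠ p : Nat.Primes, wE p) ^ g := by
    have h6 : (fun p : Nat.Primes => wA p) = fun p => wE p ^ g * t p := funext key
    rw [h6, finprod_mul_distrib, hprod, mul_one, finprod_pow]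
    · exact hEf
    · exact finite_primes _ 1 hn0 fun p hp => by
        show wE p ^ g = 1
        rw [hEone p hp, one_pow]
    · exact finite_primes _ 1 hn0 fun p hp => htone p hp
  rw [h5, mul_pow, pow_one]

end

end Pool.Agent.Zk24.PV
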