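import Pool.Agent.Zk24.PV.Cnt
import Pool.Agent.Zk24.PV.Prd
import Pool.Agent.N922.PX.Root
import Pool.Agent.N854.PX.CR
import Pool.Agent.N56.PX.DS
import Pool.Agent.N865.PX.JA

/-!
# The global root numbers of `E ⊗ M`
-/

set_option autoImplicit false
set_option linter.all false

open Polynomial IsDedekindDomain NumberField
open scoped Classical

namespace Pool.Agent.Zk24.PV

open Pool.Agent.N922.PQ (IsPr Ov exists_below below_unique one_mem_of irr_tw')
open Pool.Agent.N922.PX (ovq val_lt val_le' val_one ov_dvd unr_of)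

theorem exists_over (R : Type) [CommRing R] [IsDedekindDomain R] [Algebra.IsIntegral ℤ R]
    [CharZero R] (q : ℕ) (hq : q.Prime) : ∃ w : HeightOneSpectrum R, Ov (q : ℤ) w := by
  haveI : (Ideal.span {(q : ℤ)}).IsMaximal :=
    PrincipalIdealRing.isMaximal_of_irreducible (Nat.prime_iff_prime_int.1 hq).irreducible
  have hker : RingHom.ker (algebraMap ℤ R) ≤ Ideal.span {(q : ℤ)} := by
    have hinj : Function.Injective (algebraMap ℤ R) := by
      intro m n h
      simpa using h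
    rw [(RingHom.injective_iff_ker_eq_bot _).1 hinj]
    exact bot_le
  obtain ⟨Q, hQ, hQ'⟩ := Ideal.exists_ideal_over_maximal_of_isIntegral (S := R)
    (Ideal.span {(q : ℤ)}) hker
  have h2 : (q : R) ∈ Q := by
    have h3 : (q : ℤ) ∈ Q.comap (algebraMap ℤ R) := by
      rw [hQ']
      exact Ideal.mem_span_singleton_self _
    simpa using h3
  refine ⟨⟨Q, hQ.isPrime, ?_⟩, ?_⟩
  · rintro rfl
    rw [Ideal.mem_bot] at h2
    exact (Nat.cast_ne_zero.2 hq.ne_zero) h2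
  · unfold Pool.Agent.N922.PQ.Ov
    rw [Int.cast_natCast]
    exact h2

section

variable (M : Type) [Field M] [NumberField M]

/-- A square root of `d` which is a rational number modulo a place over `q`. -/
theorem sq_mod {q : ℕ} (hq : q.Prime) {v : HeightOneSpectrum (𝓞 M)} (hv : Ov (q : ℤ) v) {d : ℤ}
    {s : M} (hs : s ^ 2 = (d : M)) (hqd : ¬ (q : ℤ) ∣ d) {r : ℚ}
    (hr : v.valuation M (s - algebraMap ℚ M r) < v.valuation M s) :
    ∃ c : ℤ, (q : ℤ) ∣ c ^ 2 - d := by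
  have hP : IsPr (q : ℤ) := ⟨by exact_mod_cast hq.pos, Nat.prime_iff_prime_int.1 hq⟩
  have hvd : v.valuation M (d : M) = 1 := val_one fun h => hqd ((ov_dvd hP hv).1 h)
  have hvs : v.valuation M s = 1 := by
    have h1 : (v.valuation M s) ^ 2 = 1 := by rw [← map_pow, hs, hvd]
    exact (pow_eq_one_iff_of_nonneg (by simp) two_ne_zero).1 h1
  rw [hvs] at hr
  -- the valuation of `r`
  have hvr : v.valuation M (algebraMap ℚ M r) ≤ 1 := by
    have e : algebraMap ℚ M r = s - (s - algebraMap ℚ M r) := by ring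
    rw [e]
    refine (Valuation.map_sub _ _ _).trans (max_le hvs.le hr.le)
  have hrn : algebraMap ℚ M r * (r.den : M) = (r.num : M) := by
    have h1 : r * r.den = r.num := Rat.mul_den_eq_num r
    have h2 := congrArg (algebraMap ℚ M) h1
    rw [map_mul, map_natCast, map_intCast] at h2
    exact h2
  have hden : ¬ (q : ℤ) ∣ (r.den : ℤ) := by
    intro h
    have h1 : v.valuation M ((r.den : ℤ) : M) < 1 := val_lt.2 ((ov_dvd hP hv).2 h)
    rw [Int.cast_natCast] at h1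
    have h2 : v.valuation M (r.num : M) < 1 := by
      rw [← hrn, map_mul]
      exact mul_lt_one_of_nonneg_of_lt_one_right hvr (by simp) h1
    have h3 : (q : ℤ) ∣ r.num := (ov_dvd hP hv).1 (val_lt.1 h2)
    have h4 : q ∣ r.num.natAbs := by
      rw [← Int.natCast_dvd_natCast, Int.dvd_natAbs]; exact h3
    have h5 : q ∣ r.den := by exact_mod_cast h
    have h6 := Nat.dvd_gcd h4 h5
    rw [r.reduced] at h6
    exact hq.one_lt.ne' (Nat.dvd_one.1 h6)
  have h1 : v.valuation M ((r.num ^ 2 - d * (r.den : ℤ) ^ 2 : ℤ) : M) < 1 := by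
    have e : ((r.num ^ 2 - d * (r.den : ℤ) ^ 2 : ℤ) : M) =
        (-(r.den : M) ^ 2 * (s + algebraMap ℚ M r)) * (s - algebraMap ℚ M r) := by
      push_cast
      rw [← hrn, ← hs]
      ring
    rw [e, map_mul]
    refine mul_lt_one_of_nonneg_of_lt_one_right ?_ (by simp) hr
    rw [map_mul, Valuation.map_neg, map_pow]
    refine mul_le_one₀ (pow_le_one₀ (by simp) ?_) (by simp) ?_
    · have := val_le' (M := M) (r.den : ℤ) v
      rwa [Int.cast_natCast] at this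
    · exact (Valuation.map_add _ _ _).trans (max_le hvs.le hvr)
  have h2 : (q : ℤ) ∣ r.num ^ 2 - d * (r.den : ℤ) ^ 2 := (ov_dvd hP hv).1 (val_lt.1 h1)
  obtain ⟨u, w, huw⟩ := ((hP.2.irreducible.coprime_iff_not_dvd).2 hden).symm
  -- u * den + w * q = 1
  refine ⟨r.num * u, ?_⟩
  obtain ⟨k, hk⟩ := h2
  have e : (r.num * u) ^ 2 - d = (q : ℤ) * (k * u ^ 2 + d * w * (-2 + w * q)) := by
    have h5 : u * (r.den : ℤ) = 1 - w * q := by linarith
    have h6 : (r.num) ^ 2 = q * k + d * (r.den : ℤ) ^ 2 := by linarith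
    calc (r.num * u) ^ 2 - d = r.num ^ 2 * u ^ 2 - d := by ring
      _ = (q * k + d * (r.den : ℤ) ^ 2) * u ^ 2 - d := by rw [h6]
      _ = q * k * u ^ 2 + d * (u * (r.den : ℤ)) ^ 2 - d := by ring
      _ = q * k * u ^ 2 + d * (1 - w * q) ^ 2 - d := by rw [h5]
      _ = _ := by ring
  exact ⟨_, e⟩

/-- **The global root number of `E ⊗ M`.** -/
theorem root_main {δ : ℤ}
    (hδv : ∀ v : HeightOneSpectrum (𝓞 M), ¬ Ov δ v → ∃ 𝔓 : HeightOneSpectrum (𝓞 ℚ),
      ∀ x : ℚ, v.valuation M (algebraMap ℚ M x) = 𝔓.valuation ℚ x)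
    {x : ℤ × ℤ} {a b D : ℤ} (hT : Twist M δ x a b D)
    (h2 : Unramified M 2)
    {d : ℤ} (hd : Squarefree d) {s : M} (hs : s ^ 2 = (d : M))
    {g : ℕ} {wE wA : Nat.Primes → ℤ} (hw : LocalRootNumbers M (curve x) g d wE wA) :
    {p | wE p ≠ 1}.Finite ∧ {p | wA p ≠ 1}.Finite ∧
      rootNumber g wA = rootNumber 1 wE ^ g := by
  have hunr : ∀ q : ℕ, q.Prime → ¬ (q : ℤ) ∣ δ → Unramified M q := fun q hq hd => unr_of hδv hq hd
  have hPq : ∀ q : ℕ, q.Prime → IsPr (q : ℤ) := fun q hq =>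
    ⟨by exact_mod_cast hq.pos, Nat.prime_iff_prime_int.1 hq⟩
  obtain ⟨hd4', hram⟩ := Pool.Agent.N854.PX.cr M d s hd hs
  have hd4 : d % 4 = 1 := hd4' h2
  have hdδ : ∀ q : ℕ, q.Prime → (q : ℤ) ∣ d → (q : ℤ) ∣ δ := by
    intro q hq hqd
    by_contra h
    exact hram q hq hqd (hunr q hq h)
  have hs0 : s ≠ 0 := by
    rintro rfl
    apply hd.ne_zero
    rw [zero_pow two_ne_zero] at hs
    exact_mod_cast hs.symm
  set Δ₀ : ℤ := 4 * a ^ 3 + 27 * b ^ 2 with hΔ
  have hΔodd : Odd Δ₀ := by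
    have h1 : Odd (27 * b ^ 2) := (by decide : Odd (27 : ℤ)).mul (hT.ob.pow)
    have h3 : Even (4 * a ^ 3) := (by decide : Even (4 : ℤ)).mul_right _
    exact h3.add_odd h1
  have hN0 : Δ₀ ≠ 0 := hT.pos.ne'
  -- square of the discriminant modulo the primes of `δ`
  have hds : ∀ q : ℕ, q.Prime → q ≠ 2 → (q = 3 ∨ (q : ℤ) ∣ δ) →
      ∃ c : ℤ, ¬ (q : ℤ) ∣ c ∧ (q : ℤ) ∣ Δ₀ + c ^ 2 := by
    intro q hq hq2 h
    haveI : Fact q.Prime := ⟨hq⟩
    have h1 := (hT.irr q (hPq q hq) (by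
      rcases h with rfl | h
      · right; left; norm_num
      · right; right; exact h)).2
    refine Pool.Agent.N56.PX.DS.ds q a b hq2 (irr_tw' fun t => ?_)
    obtain ⟨z, rfl⟩ := ZMod.intCast_surjective t
    intro h3
    apply h1 z
    rw [← ZMod.intCast_zmod_eq_zero_iff_dvd]
    push_cast
    exact h3
  have hnd : ∀ q : ℕ, q.Prime → (q = 2 ∨ q = 3 ∨ (q : ℤ) ∣ δ) → ¬ (q : ℤ) ∣ Δ₀ := by
    intro q hq h h3
    by_cases hq2 : q = 2
    · subst hq2
      have : (2 : ℤ) ∣ Δ₀ := by exact_mod_cast h3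
      rw [← even_iff_two_dvd] at this
      exact (Int.not_even_iff_odd.2 hΔodd) this
    · obtain ⟨c, hc, hc'⟩ := hds q hq hq2 (by tauto)
      have h4 : (q : ℤ) ∣ c ^ 2 := by
        have := dvd_sub hc' h3
        rwa [add_sub_cancel_left] at this
      exact hc ((hPq q hq).2.dvd_of_dvd_pow h4)
  -- the primes dividing `Δ₀`
  have hcond : ∀ q : ℕ, q.Prime → (q : ℤ) ∣ Δ₀ → q ≠ 3 ∧ Unramified M q ∧ ¬ (q : ℤ) ∣ a := by
    intro q hq hd
    refine ⟨fun h => hnd q hq (Or.inr (Or.inl h)) hd,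
      hunr q hq (fun h => hnd q hq (Or.inr (Or.inr h)) hd), fun ha => ?_⟩
    have hqp := (hPq q hq).2
    have h3 : (q : ℤ) ∣ 27 * b ^ 2 := by
      have h4 : (q : ℤ) ∣ 4 * a ^ 3 := dvd_mul_of_dvd_right (dvd_pow ha three_ne_zero) _
      have := dvd_sub hd h4
      rwa [hΔ, add_sub_cancel_left] at this
    have h5 : (q : ℤ) ∣ b := by
      rcases hqp.dvd_or_dvd h3 with h4 | h4
      · exfalso
        have h6 : q ∣ 27 := by exact_mod_cast h4
        have h7 : q ∣ 3 ^ 3 := by norm_num; exact h6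
        have h8 := (Nat.prime_dvd_prime_iff_eq hq Nat.prime_three).1 (hq.dvd_of_dvd_pow h7)
        exact hnd q hq (Or.inr (Or.inl h8)) hd
      · exact hqp.dvd_of_dvd_pow h4
    have h6 : (q : ℤ) * q ∣ Δ₀ := by
      obtain ⟨x, rfl⟩ := ha
      obtain ⟨y, rfl⟩ := h5
      exact ⟨4 * (q * x ^ 3) + 27 * y ^ 2, by rw [hΔ]; ring⟩
    exact hqp.not_unit (hT.sq _ h6)
  refine root_eq hT.eA hT.eB hT.pos hT.sq hT.oa hT.ob hT.D0 h2 hT.oA hT.four hd hd4
    hram ?_ hcond ?_ hw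
  · intro q hq hqD
    have hP := hPq q hq
    obtain ⟨c1, c2⟩ := hT.spl q hP hqD
    have hq2 : q ≠ 2 := by
      rintro rfl
      exact (hT.irr (2 : ℕ) hP (Or.inl (by norm_num))).1 hqD
    have hqδ : ¬ (q : ℤ) ∣ δ := fun h => (hT.irr q hP (Or.inr (Or.inr h))).1 hqD
    have hun := hunr q hq hqδ
    refine ⟨hq2, hun, c1, ?_⟩
    obtain ⟨v, hv⟩ := exists_over (𝓞 M) q hq
    obtain ⟨r, hr⟩ := c2 v hv s hs0
    exact sq_mod M hq hv hs (fun h => hqδ (hdδ q hq h)) hr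
  · set N : ℕ := Δ₀.natAbs with hN
    have hNn : ((N : ℕ) : ℤ) = Δ₀ := by
      rw [hN]
      exact Int.natAbs_of_nonneg hT.pos.le
    refine Pool.Agent.N865.PX.ja d N hd hd4 ?_ ?_ ?_
    · rw [hN]
      exact Int.squarefree_natAbs.2 hT.sq
    · rw [hN, Int.natAbs_odd]
      exact hΔodd
    · intro q hq hqd
      rw [hNn]
      refine hds q hq ?_ (Or.inr (hdδ q hq hqd))
      rintro rfl
      exact hram 2 hq hqd h2

end

end Pool.Agent.Zk24.PV
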